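import Pool.Agent.PST.StmtsU
import Pool.Agent.Helper92_PSS.TRA
import Pool.Agent.Helper85_PSS.LKX
import Pool.Agent.Helper75_PSS.SPF
import Pool.Agent.Helper63_PSS.FUN
import Pool.Agent.Helper84_PSS.RFE
import Pool.Agent.Helper30_PSS.S3All

/-!
# PST, block U, row RHR: a homogeneous relation between the relative traces
-/

open scoped BigOperators TensorProduct PowerSeries

noncomputable section

namespace Pool.Agent.PST.U.H26

open Pool.Agent.PFC (tw IsTv)
open Pool.Agent.PFD.D2b (FrR)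
open Pool.Agent.PSS
open Pool.Agent.PSS.S0 Pool.Agent.PSS.S3
open Pool.Agent.PSS.Dm (cst smulq)

section
variable {k A W : Type} [CommRing k] [Ring A] [Algebra k A] [Group W] {om : W →* A}
  (D : Dm k om)

theorem C_smul_of (t : k) (f : ℕ → A) :
    (PowerSeries.C t : PowerSeries k) • D.of f = D.of (fun n => t • f n) := by
  rw [← D.of_smul]
  congr 1
  funext n
  rw [smulq, Finset.sum_eq_single (0, n)]
  · simp
  · rintro ⟨a', b⟩ h hne
    rw [Finset.HasAntidiagonal.mem_antidiagonal] at h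
    rcases a' with _ | a'
    · simp only [zero_add] at h
      exact absurd (by rw [h]) hne
    · rw [PowerSeries.coeff_C, if_neg (Nat.succ_ne_zero a'), zero_smul]
  · intro h
    exact absurd (by rw [Finset.HasAntidiagonal.mem_antidiagonal]; simp) h
end

theorem rhr (crt : CrtStmt) (chp : ChpStmt) : RhrStmt := by
  intro R K V A B κ κ' Ω _ _ _ _ _ _ _ _ _ _ _ _ _ _ _ _ _ W _ α lam x y b c C D P m Λ x' y' w
    u u' hT hm hRF hu hu'
  obtain ⟨⟨D', hD'⟩, -, -⟩ := H92.tra K V B (ia C.i α) W P m hT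
  obtain ⟨ψ, Λ', hψ, hψw, hΛ', hRF'⟩ := H85.lkx H75.rmp H63.funs H84.rfe R K V A B κ κ' Ω W α lam
    x y b c C D D' Λ x' y' (fun n a₁ a₂ => by rw [hD']; exact hm n a₁ a₂) hRF
  have : FiniteDimensional K B := by
    classical
    refine ⟨⟨Finset.univ.image (fun ω => C.i (b ω)), eq_top_iff.2 fun a _ => ?_⟩⟩
    rw [← C.frK.2.2 a]
    refine Submodule.sum_mem _ fun ω _ => Submodule.smul_mem _ _ (Submodule.subset_span ?_)
    rw [Finset.coe_image]
    exact ⟨ω, Finset.mem_coe.2 (Finset.mem_univ ω), rfl⟩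
  obtain ⟨T, _, _, Φ, j, N, N', hbij, hΦs, hjC, hNc, hNN, hNF⟩ := crt K V B κ κ' W (ia C.i α)
    C.lamK (fun t => C.i (x t)) (fun t => C.i (y t)) P m D' Λ' (fun t => ψ (x' t))
    (fun t => ψ (y' t)) hT hD' C.rfK hRF'
  -- central elements of `A`
  have hmw : ∀ w : V, α w ∈ FxR (cw R α) ⊤ := by
    intro w v _
    show α v * (α w * α v⁻¹) = α w
    rw [← map_mul, ← map_mul]
    congr 1
    rw [mul_comm w, ← mul_assoc, mul_inv_cancel, one_mul]
  have hzc : ∀ w : V, ∀ a, rt x y (α w) * a = a * rt x y (α w) := by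
    intro w a
    exact (All30.zrt R V A κ α lam x y C.rf (α w) (hmw w) a).symm
  have hz1c : ∀ a, rt x y 1 * a = a * rt x y 1 := by
    intro a
    have h := hzc 1 a
    rw [map_one] at h
    exact h
  obtain ⟨d, a, ha0, hsum⟩ := chp R A (rt x y (α w)) (rt x y 1) u u' (hzc w) hz1c hu hu'
  refine ⟨d, a, ha0, ?_⟩
  -- the map `Φ ∘ ψ` is injective
  have hψi : Function.Injective ψ := by
    intro p q hpq
    rw [← D.of_sq p, ← D.of_sq q, hψ, hψ] at hpq
    have h1 := congrArg D'.sq hpq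
    rw [D'.sq_of, D'.sq_of] at h1
    have h2 : D.sq p = D.sq q := by
      funext n
      exact C.inj (congrFun h1 n)
    rw [← D.of_sq p, ← D.of_sq q, h2]
  have hψC : ∀ (t : R) (p : D.R), ψ ((PowerSeries.C t : PowerSeries R) • p) =
      (PowerSeries.C (algebraMap R K t) : PowerSeries K) • ψ p := by
    intro t p
    rw [← D.of_sq p, C_smul_of, hψ, hψ, C_smul_of]
    congr 1
    funext n
    rw [map_smul, C.tow]
  have hψr : ∀ q : D.R, ψ (rt x' y' q) = rt (fun t => ψ (x' t)) (fun t => ψ (y' t)) (ψ q) := by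
    intro q
    rw [rt, rt, map_sum]
    refine Finset.sum_congr rfl fun t _ => ?_
    rw [map_mul, map_mul]
  have hir : ∀ q : A, rt (fun t => C.i (x t)) (fun t => C.i (y t)) (C.i q) = C.i (rt x y q) := by
    intro q
    rw [rt, rt, map_sum]
    refine Finset.sum_congr rfl fun t _ => ?_
    rw [map_mul, map_mul]
  have hw : N * Φ (ψ (rt x' y' (D.w w))) = (W.index : T) * j (C.i (rt x y (α w))) := by
    rw [hψr, hψw, hNF w, nsmul_eq_mul, ← hir]
    rfl
  have h1 : N * Φ (ψ (rt x' y' 1)) = (W.index : T) * j (C.i (rt x y 1)) := by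
    have h := hNF 1
    rw [map_one, OneMemClass.coe_one, map_one, nsmul_eq_mul] at h
    rw [hψr, map_one, h, ← hir, map_one]
  obtain ⟨p, hp⟩ : ∃ p, p = Φ (ψ (rt x' y' (D.w w))) := ⟨_, rfl⟩
  obtain ⟨p1, hp1⟩ : ∃ p1, p1 = Φ (ψ (rt x' y' 1)) := ⟨_, rfl⟩
  rw [← hp] at hw
  rw [← hp1] at h1
  have hkey : N ^ d * Φ (ψ (∑ i ∈ Finset.range (d + 1), (PowerSeries.C (a i) : PowerSeries R) •
      (rt x' y' (D.w w) ^ i * rt x' y' 1 ^ (d - i)))) = 0 := by
    rw [map_sum, map_sum, Finset.mul_sum]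
    have hterm : ∀ i ∈ Finset.range (d + 1), N ^ d * Φ (ψ ((PowerSeries.C (a i) : PowerSeries R) •
        (rt x' y' (D.w w) ^ i * rt x' y' 1 ^ (d - i)))) =
        (W.index : T) ^ d * j (C.i (a i • (rt x y (α w) ^ i * rt x y 1 ^ (d - i)))) := by
      intro i hi
      have hid : i + (d - i) = d := by
        have := Finset.mem_range.1 hi
        omega
      have hNcm : ∀ q : T, Commute N q := fun q => hNc q
      have hIc : ∀ q : T, Commute (W.index : T) q := fun q => Nat.cast_commute _ _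
      have e1 : N ^ d * (p ^ i * p1 ^ (d - i)) = (N * p) ^ i * (N * p1) ^ (d - i) := by
        rw [(hNcm p).mul_pow, (hNcm p1).mul_pow]
        calc N ^ d * (p ^ i * p1 ^ (d - i)) = N ^ i * N ^ (d - i) * (p ^ i * p1 ^ (d - i)) := by
              rw [← pow_add, hid]
          _ = N ^ i * (N ^ (d - i) * p ^ i) * p1 ^ (d - i) := by simp only [mul_assoc]
          _ = N ^ i * (p ^ i * N ^ (d - i)) * p1 ^ (d - i) := by
              rw [((hNcm (p ^ i)).pow_left (d - i)).eq]
          _ = N ^ i * p ^ i * (N ^ (d - i) * p1 ^ (d - i)) := by simp only [mul_assoc]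
      have e2 : ((W.index : T) * j (C.i (rt x y (α w)))) ^ i *
          ((W.index : T) * j (C.i (rt x y 1))) ^ (d - i) =
          (W.index : T) ^ d * (j (C.i (rt x y (α w))) ^ i * j (C.i (rt x y 1)) ^ (d - i)) := by
        rw [(hIc _).mul_pow, (hIc _).mul_pow]
        calc (W.index : T) ^ i * j (C.i (rt x y (α w))) ^ i *
              ((W.index : T) ^ (d - i) * j (C.i (rt x y 1)) ^ (d - i)) =
              (W.index : T) ^ i * (j (C.i (rt x y (α w))) ^ i * (W.index : T) ^ (d - i)) *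
                j (C.i (rt x y 1)) ^ (d - i) := by simp only [mul_assoc]
          _ = (W.index : T) ^ i * ((W.index : T) ^ (d - i) * j (C.i (rt x y (α w))) ^ i) *
                j (C.i (rt x y 1)) ^ (d - i) := by
              rw [((hIc (j (C.i (rt x y (α w))) ^ i)).pow_left (d - i)).eq]
          _ = (W.index : T) ^ i * (W.index : T) ^ (d - i) *
                (j (C.i (rt x y (α w))) ^ i * j (C.i (rt x y 1)) ^ (d - i)) := by
              simp only [mul_assoc]
          _ = _ := by rw [← pow_add, hid]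
      rw [hψC, hΦs, map_mul, map_mul, map_pow, map_pow, map_pow, map_pow, ← hp, ← hp1,
        mul_smul_comm, e1, hw, h1, e2, map_smul, ← C.tow, hjC, map_mul, map_mul, map_pow, map_pow,
        map_pow, map_pow, mul_smul_comm]
    rw [Finset.sum_congr rfl hterm, ← Finset.mul_sum, ← map_sum, ← map_sum, hsum, map_zero,
      map_zero, mul_zero]
  have hN' : N' ^ d * N ^ d = 1 := by
    have h2 : N' * N = 1 := by rw [← hNc, hNN]
    have h3 : Commute N' N := (hNc N').symm
    rw [← h3.mul_pow, h2, one_pow]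
  have hzero : Φ (ψ (∑ i ∈ Finset.range (d + 1), (PowerSeries.C (a i) : PowerSeries R) •
      (rt x' y' (D.w w) ^ i * rt x' y' 1 ^ (d - i)))) = 0 := by
    have h2 := congrArg (fun q => N' ^ d * q) hkey
    simp only [mul_zero] at h2
    rw [← mul_assoc, hN', one_mul] at h2
    exact h2
  apply hψi
  apply hbij.1
  rw [hzero, map_zero, map_zero]

end Pool.Agent.PST.U.H26
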