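import Pool.Agent.PST.StmtsU
import Pool.Agent.Helper30_PSS.S3All

/-!
# PST, block U, row RTU: all relative traces `rt_V(v)` are units
-/

open scoped BigOperators TensorProduct PowerSeries

noncomputable section

namespace Pool.Agent.PST.U.H26

open Pool.Agent.PFC (tw IsTv)
open Pool.Agent.PFD.D2b (FrR)
open Pool.Agent.PSS
open Pool.Agent.PSS.S0 Pool.Agent.PSS.S3

section gen

variable {R V A : Type} [CommRing R] [CommGroup V] [Ring A] [Algebra R A] {α : V →* A}

theorem rtu_mem {P : Subgroup V} {a : A} (h : ∀ u ∈ P, α u * a = a * α u) :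
    a ∈ FxR (cw R α) P := by
  intro u hu
  show α u * (a * α u⁻¹) = a
  rw [← mul_assoc, h u hu, mul_assoc, ← map_mul, mul_inv_cancel, map_one, mul_one]

theorem rtu_comm {P : Subgroup V} {a : A} (h : a ∈ FxR (cw R α) P) {u : V} (hu : u ∈ P) :
    α u * a = a * α u := by
  have h1 : α u * (a * α u⁻¹) = a := h u hu
  calc α u * a = α u * (a * (α u⁻¹ * α u)) := by
        rw [← map_mul, inv_mul_cancel, map_one, mul_one]
    _ = (α u * (a * α u⁻¹)) * α u := by simp only [mul_assoc]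
    _ = a * α u := by rw [h1]

end gen

theorem rtu : RtuStmt := by
  classical
  intro ℓ _ F V E A K _ _ _ _ _ _ _ _ _ φ α lam x y hV hE hC hRF hu v
  obtain ⟨u, hu⟩ := hu
  have hℓ : (ℓ : F) = 0 := CharP.cast_eq_zero F ℓ
  -- central elements
  have hmw : ∀ w : V, α w ∈ FxR (cw F α) ⊤ := by
    intro w
    apply rtu_mem
    intro v _
    rw [← map_mul, ← map_mul, mul_comm]
  have hm1 : (1 : A) ∈ FxR (cw F α) ⊤ := rtu_mem fun v _ => by rw [mul_one, one_mul]
  obtain ⟨Z, hZ⟩ : ∃ Z : A, Z = ∑ k, x k * α v * y k := ⟨_, rfl⟩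
  obtain ⟨Z1, hZ1⟩ : ∃ Z1 : A, Z1 = ∑ k, x k * y k := ⟨_, rfl⟩
  have hcZ : ∀ c, c * Z = Z * c := by
    intro c
    rw [hZ]
    exact All30.zrt F V A K α lam x y hRF (α v) (hmw v) c
  have hcZ1 : ∀ c, c * Z1 = Z1 * c := by
    intro c
    have h1 := All30.zrt F V A K α lam x y hRF 1 hm1 c
    simp only [mul_one] at h1
    rw [hZ1]
    exact h1
  -- the representatives
  have : Fintype φ.range := Fintype.ofFinite _
  have hs : ∀ g : φ.range, ∃ e : E, φ e = g := fun g => g.2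
  choose s hs using hs
  obtain ⟨T, hTd⟩ : ∃ T : Finset E, T = Finset.univ.image s := ⟨_, rfl⟩
  have hT : ∀ e : E, ∃! t, t ∈ T ∧ ∀ q ∈ (⊤ : Subgroup V), (φ t)⁻¹ q = (φ e)⁻¹ q := by
    intro e
    refine ⟨s ⟨φ e, e, rfl⟩, ⟨?_, ?_⟩, ?_⟩
    · rw [hTd]
      exact Finset.mem_image_of_mem _ (Finset.mem_univ _)
    · intro v _
      rw [hs]
    · rintro t ⟨ht, ht'⟩
      rw [hTd] at ht
      obtain ⟨g, -, rfl⟩ := Finset.mem_image.1 ht
      have h1 : φ (s g) = φ e := by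
        have h2 : (φ (s g))⁻¹ = (φ e)⁻¹ := by
          apply MulEquiv.ext
          intro v
          exact ht' v trivial
        exact inv_injective h2
      have h3 : g = ⟨φ e, e, rfl⟩ := by
        apply Subtype.ext
        show (g : MulAut V) = φ e
        rw [← h1, hs]
      rw [h3]
  -- units
  choose n n' hn1 hn2 hn3 using hC.uni
  -- the Brauer quotient
  obtain ⟨B, _, _, γB, β, hB⟩ := All30.bqx F V A α ⊤
  obtain ⟨-, -, lamB, KB, _, xB, yB, hRB, hlB⟩ := All30.bpu ℓ F V E A B K φ α ⊤ γB β lam x y φ.ker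
    hℓ hV hC.per hC.uni hRF hB (by
      intro e
      constructor
      · intro he v _
        rw [MonoidHom.mem_ker.1 he]
        rfl
      · intro he
        rw [MonoidHom.mem_ker]
        apply MulEquiv.ext
        intro v
        exact he v trivial)
  have hmk := All30.mck ℓ F V E A B K KB φ α ⊤ γB β lam x y lamB xB yB n n' T hℓ hV hC.per hRF hB
    hRB hlB (fun e => ⟨hn1 e, hn2 e, hn3 e⟩) hT
  have hcB : ∀ (v : V) (z : B), γB v * z = z * γB v := by
    intro v z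
    obtain ⟨a, ha, rfl⟩ := hB.surj z
    rw [← hB.om, ← hB.mul _ (hmw v) _ ha, ← hB.mul _ ha _ (hmw v), rtu_comm ha (Subgroup.mem_top v)]
  obtain ⟨S, hS⟩ : ∃ S : B, S = ∑ k, xB k * yB k := ⟨_, rfl⟩
  have hbw : β Z = (∑ t ∈ T, γB (φ t v)) * S := by
    rw [hZ, hmk _ (hmw v), Finset.sum_mul]
    refine Finset.sum_congr rfl fun t _ => ?_
    have h1 : n t * α v * n' t = α (φ t v) := by
      rw [hn3, mul_assoc, hn1, mul_one]
    rw [h1, hB.om, hS, Finset.mul_sum]
    refine Finset.sum_congr rfl fun k _ => ?_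
    rw [← hcB, mul_assoc]
  have hb1 : β Z1 = (∑ _t ∈ T, (1 : B)) * S := by
    have h1 := hmk _ hm1
    simp only [mul_one] at h1
    rw [hZ1, h1, Finset.sum_mul]
    refine Finset.sum_congr rfl fun t _ => ?_
    rw [hn1, hB.one, hS, one_mul]
    simp only [mul_one]
  have hZm : Z ∈ FxR (cw F α) ⊤ := rtu_mem fun w _ => hcZ _
  have hZ1m : Z1 ∈ FxR (cw F α) ⊤ := rtu_mem fun w _ => hcZ1 _
  have hmul : ∀ a ∈ FxR (cw F α) ⊤, ∀ b ∈ FxR (cw F α) ⊤, a * b ∈ FxR (cw F α) ⊤ := by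
    intro a ha b hb
    apply rtu_mem
    intro w hw
    rw [← mul_assoc, rtu_comm ha hw, mul_assoc, rtu_comm hb hw, mul_assoc]
  obtain ⟨D, hD⟩ : ∃ D : A, D = Z - Z1 := ⟨_, rfl⟩
  have hDm : D ∈ FxR (cw F α) ⊤ := by
    rw [hD]
    exact Submodule.sub_mem _ hZm hZ1m
  have hbD : β D = (∑ t ∈ T, (γB (φ t v) - 1)) * S := by
    have h1 : Z = D + Z1 := by rw [hD]; abel
    have h2 : β Z = β D + β Z1 := by
      conv_lhs => rw [h1]
      exact hB.add _ hDm _ hZ1m
    have h3 : β D = β Z - β Z1 := by rw [h2]; abel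
    rw [h3, hbw, hb1, ← sub_mul, Finset.sum_sub_distrib]
  -- `β D` is nilpotent
  have hnB : IsNilpotent (β D) := by
    rcases subsingleton_or_nontrivial B with hsub | hnt
    · exact ⟨1, Subsingleton.elim _ _⟩
    have hch : CharP B ℓ := charP_of_injective_algebraMap (algebraMap F B).injective ℓ
    rw [hbD]
    have hcc : ∀ w : V, ∀ z : B, Commute (γB w - 1) z := by
      intro w z
      show (γB w - 1) * z = z * (γB w - 1)
      rw [sub_mul, mul_sub, hcB, one_mul, mul_one]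
    have h1 : IsNilpotent (∑ t ∈ T, (γB (φ t v) - 1)) := by
      apply Commute.isNilpotent_sum
      · intro t _
        obtain ⟨k, hk⟩ := hV (φ t v)
        refine ⟨ℓ ^ k, ?_⟩
        rw [sub_pow_char_pow_of_commute _ _ (Commute.one_right _), one_pow, ← map_pow, hk, map_one,
          sub_self]
      · intro t t' _ _
        exact hcc _ _
    have h2 : Commute (∑ t ∈ T, (γB (φ t v) - 1)) S :=
      Commute.sum_left _ _ _ (fun t _ => hcc _ _)
    exact h2.isNilpotent_mul_right h1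
  -- powers
  have hpw : ∀ j : ℕ, D ^ j ∈ FxR (cw F α) ⊤ ∧ β (D ^ j) = β D ^ j := by
    intro j
    induction j with
    | zero => exact ⟨by rw [pow_zero]; exact hm1, by rw [pow_zero, pow_zero, hB.one]⟩
    | succ j ih =>
      refine ⟨by rw [pow_succ]; exact hmul _ ih.1 _ hDm, ?_⟩
      rw [pow_succ, pow_succ, hB.mul _ ih.1 _ hDm, ih.2]
  have hDc : ∀ a, D * a = a * D := by
    intro a
    rw [hD, sub_mul, mul_sub, hcZ, hcZ1]
  obtain ⟨j, hj⟩ := hnB
  have hDj : D ^ j ∈ BKR (cw F α) ⊤ := (hB.ker _ (hpw j).1).1 (by rw [(hpw j).2, hj])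
  have hnil : IsNilpotent D := by
    have h1 := All30.idn ℓ F V E A φ α ⊤ (D ^ j) hV hC (by
      intro a
      have h2 : Commute D a := hDc a
      exact (h2.pow_left j)) hDj
    obtain ⟨i, hi⟩ := h1
    exact ⟨j * i, by rw [pow_mul, hi]⟩
  have hZ1u : IsUnit Z1 := by
    rw [← hZ1] at hu
    exact ⟨⟨Z1, u, by rw [← hcZ1, hu], hu⟩, rfl⟩
  have hZu : IsUnit Z := by
    have h1 : Z = Z1 + D := by rw [hD]; abel
    rw [h1]
    exact hnil.isUnit_add_left_of_commute hZ1u (hDc Z1)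
  obtain ⟨w, hw⟩ := hZu
  refine ⟨(w⁻¹ : Aˣ), ?_⟩
  rw [← hZ, ← hw]
  exact w.inv_mul

end Pool.Agent.PST.U.H26
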